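import Pool.Agent.GEN.StmtsR

/-!
# Squad GEN, row ROO (helper6): the root side
-/

set_option autoImplicit false

namespace Pool.Agent.GEN.H6

open MvPolynomial Finset Pool.Agent.GEN Pool.Agent.Helper6_Mono Pool.Agent.Helper30_Simp
  Pool.Agent.Helper30_Simp2

open scoped Classical in
theorem roo (hSTR : StrStmtA) (hCOR : CorStmt) (hDSB : DsbStmt) (hGWB : GwbStmt) : RooStmt := by
  intro σ _ f κ N B hind hN hge hBsub hBne hBeq hindep hflat hUB
  obtain ⟨s₀, hs₀⟩ : ∃ s₀ : ℚ, s₀ = -(((∑ i, κ i : ℕ) : ℚ) / (N : ℕ)) := ⟨_, rfl⟩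
  have hs₀C : ((s₀ : ℚ) : ℂ) = -(((∑ i, κ i : ℕ) : ℂ) / (N : ℕ)) := by
    rw [hs₀]
    push_cast
    rfl
  -- the weights are not all zero
  have hsum : ∑ i, κ i ≠ 0 := by
    intro h0
    have h1 : ∀ i, κ i = 0 := by
      intro i
      exact (Finset.sum_eq_zero_iff.1 h0) i (Finset.mem_univ i)
    obtain ⟨α, hα⟩ := hBne
    have h2 := hBeq α hα
    unfold dot at h2
    rw [Finset.sum_eq_zero fun j _ => by rw [h1 j, zero_mul]] at h2
    omega
  have key : ∀ b : Polynomial ℂ, LocalBS f b → b.eval ((s₀ : ℚ) : ℂ) = 0 := by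
    intro b hb
    by_contra hbne
    obtain ⟨ω, K₀, hK⟩ := hGWB σ f κ N B hN hge hBsub hBne hBeq hindep hflat hUB
    obtain ⟨d, be, hbe, e, he, hne⟩ := hDSB σ f hind b hb s₀ hbne ω
    obtain ⟨K, hKdef⟩ : ∃ K, K = K₀ + (f.support.card + 1) * d + 1 := ⟨_, rfl⟩
    have hKge : K ≥ K₀ := by
      rw [hKdef]
      omega
    have hKpos : 0 < K := by
      rw [hKdef]
      omega
    obtain ⟨a1, a2, a3, a4, a5, a6⟩ := hK K hKge
    obtain ⟨q, κ', D, hq, hDN, hin, hz, hface, hs⟩ := hSTR (Option σ) (liftF ω f).support (actv σ)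
      (wOpt (fun i => K * κ i) 1) (K * N) (Nat.mul_pos hKpos hN) a1 a2 a3 a4
    have hnone : κ' none = q := by
      have h1 := hin none (fun h => h rfl)
      rw [h1]
      exact Nat.mul_one q
    have hzero : ∀ i, κ i = 0 → κ' (some i) = 0 := by
      intro i hi
      apply hz (some i)
      show K * κ i = 0
      rw [hi, mul_zero]
    have hsome : ∑ i, κ' (some i) = q * (K * ∑ i, κ i) := by
      rw [Fintype.sum_option, Fintype.sum_option, hnone] at hs
      have h2 : (wOpt (fun i => K * κ i) 1 : Option σ → ℕ) none = 1 := rfl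
      have h3 : ∑ i : σ, (wOpt (fun i => K * κ i) 1 : Option σ → ℕ) (some i) =
          K * ∑ i, κ i := by
        rw [Finset.mul_sum]
        rfl
      rw [h2, h3, mul_add, mul_one] at hs
      omega
    have hge' : ∀ α ∈ (liftF ω f).support, q * (K * N) ≤ dot κ' α := by
      intro α hα
      rw [← hDN]
      exact D.ge α hα
    have hface' : ∀ α ∈ face (liftF ω f).support κ', dot κ' α = q * (K * N) := by
      intro α hα
      refine le_antisymm ?_ (hge' α hα.1)
      obtain ⟨α₀, h1, h2⟩ := D.ex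
      rw [← hDN, ← h2]
      exact hα.2 α₀ h1
    obtain ⟨hSimp, hSumA⟩ := a6 q κ' hq hnone hzero hsome hge' hface hface'
    rw [← hDN] at hSimp hSumA
    have hex : ∃ j, j ≠ none ∧ κ' j ≠ 0 := by
      by_contra hcon
      push Not at hcon
      have h1 : ∑ i, κ' (some i) = 0 :=
        Finset.sum_eq_zero fun i _ => hcon (some i) (by simp)
      rw [hsome] at h1
      have h2 : 0 < ∑ i, κ i := Nat.pos_of_ne_zero hsum
      have h3 : 0 < q * (K * ∑ i, κ i) := Nat.mul_pos hq (Nat.mul_pos hKpos h2)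
      omega
    have hineq : ((liftF ω f).support.card + 1) * d * κ' none < D.N := by
      rw [a5, hnone, hDN, mul_comm]
      refine Nat.mul_lt_mul_of_pos_left ?_ hq
      calc (f.support.card + 1) * d < K := by rw [hKdef]; omega
        _ ≤ K * N := Nat.le_mul_of_pos_right K hN
    have hfin := hCOR (Option σ) (liftF ω f) none κ' D (by rw [hnone]; exact hq.ne') hex hSimp
      hSumA d be hineq hbe e he
    apply hne
    have hval : ((s₀ : ℚ) : ℂ) =
        -((∑ i ∈ (univ : Finset (Option σ)).erase none, (κ' i : ℂ)) / (D.N : ℕ)) := by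
      have h1 : ∑ i ∈ (univ : Finset (Option σ)).erase none, (κ' i : ℂ) =
          ((q * (K * ∑ i, κ i) : ℕ) : ℂ) := by
        have h2 := Finset.add_sum_erase (univ : Finset (Option σ)) (fun i => (κ' i : ℂ))
          (Finset.mem_univ none)
        rw [Fintype.sum_option] at h2
        have h3 := add_left_cancel h2
        rw [h3, ← hsome, Nat.cast_sum]
      have hqC : (q : ℂ) ≠ 0 := by exact_mod_cast hq.ne'
      have hKC : (K : ℂ) ≠ 0 := by exact_mod_cast hKpos.ne'
      have hNC : (N : ℂ) ≠ 0 := by exact_mod_cast hN.ne'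
      rw [hs₀C, h1, hDN]
      congr 1
      rw [Nat.cast_mul, Nat.cast_mul, Nat.cast_mul, Nat.cast_mul,
        mul_div_mul_left _ _ hqC, mul_div_mul_left _ _ hKC]
    rw [hval]
    exact hfin
  have hI : Ideal.span {b | LocalBS f b} ≤
      RingHom.ker (Polynomial.evalRingHom ((s₀ : ℚ) : ℂ)) := by
    rw [Ideal.span_le]
    intro b hb
    rw [SetLike.mem_coe, RingHom.mem_ker, Polynomial.coe_evalRingHom]
    exact key b hb
  have h3 := hI (Submodule.IsPrincipal.generator_mem (Ideal.span {b | LocalBS f b}))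
  rw [RingHom.mem_ker, Polynomial.coe_evalRingHom] at h3
  rw [← hs₀C, bfun, normalize_apply, Polynomial.eval_mul, h3, zero_mul]

end Pool.Agent.GEN.H6
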